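import Pool.Agent.Helper50.Tm.Goals

/-!
Packet TM-TR1 of MP_f619a5_ag: the trace maps the identity component to the identity component.
-/

open CategoryTheory AlgebraicGeometry Limits TensorProduct MonoidalCategory
open scoped Obj

namespace Pool.Agent.Helper42.Tm

open Pool.Agent.Helper50.Tm
open Pool.Agent.Helper40.Nm (specOver homGroup specialFibre)

section basic

variable {R : Type} [CommRing R] [IsLocalRing R] {G G' : Over (Spec (CommRingCat.of R))}

theorem cpt_mem' (s : Pts G R) : cpt s ∈ specialFibre G := by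
  have h : s.left ≫ G.hom = Spec.map (CommRingCat.ofHom (RingHom.id R)) := Over.w s
  have h2 : s.left ≫ G.hom = 𝟙 _ := by
    rw [h]
    exact Spec.map_id _
  have h3 : (s.left ≫ G.hom) (IsLocalRing.closedPoint R) = IsLocalRing.closedPoint R := by
    rw [h2]
    rfl
  exact h3

theorem sc_refl (s : Pts G R) : SameComp s s :=
  mem_connectedComponentIn (cpt_mem' s)

theorem sc_symm {s s' : Pts G R} (h : SameComp s s') : SameComp s' s := by
  unfold SameComp at *
  rw [← connectedComponentIn_eq h]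
  exact mem_connectedComponentIn (cpt_mem' s)

theorem mem_fibre_iff (v : G ⟶ G') (x : G.left) :
    v.left x ∈ specialFibre G' ↔ x ∈ specialFibre G := by
  have h : v.left ≫ G'.hom = G.hom := Over.w v
  have h2 : G'.hom (v.left x) = G.hom x := by
    rw [← h]
    rfl
  unfold specialFibre
  rw [Set.mem_preimage, Set.mem_preimage, h2]

theorem cpt_comp (v : G ⟶ G') (s : Pts G R) : cpt (s ≫ v : Pts G' R) = v.left (cpt s) := rfl

/-- morphisms preserve `SameComp` -/
theorem sc_map (v : G ⟶ G') {s s' : Pts G R} (h : SameComp s s') :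
    SameComp (s ≫ v : Pts G' R) (s' ≫ v) := by
  unfold SameComp at *
  rw [cpt_comp, cpt_comp]
  have h1 : _root_.IsPreconnected (v.left '' connectedComponentIn (specialFibre G) (cpt s)) :=
    isPreconnected_connectedComponentIn.image v.left v.left.continuous.continuousOn
  have h2 : v.left '' connectedComponentIn (specialFibre G) (cpt s) ⊆ specialFibre G' := by
    rintro _ ⟨z, hz, rfl⟩
    exact (mem_fibre_iff v z).2 (connectedComponentIn_subset _ _ hz)
  exact h1.subset_connectedComponentIn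
    ⟨cpt s, mem_connectedComponentIn (cpt_mem' s), rfl⟩ h2 ⟨cpt s', h, rfl⟩

/-- two points of an open subscheme in the same component of its special fibre -/
theorem sc_of_image (j : G ⟶ G') [IsOpenImmersion j.left] {s s' : Pts G R}
    (h : cpt (s' ≫ j : Pts G' R) ∈
      connectedComponentIn (Set.range j.left ∩ specialFibre G') (cpt (s ≫ j : Pts G' R))) :
    SameComp s s' := by
  set C := connectedComponentIn (Set.range j.left ∩ specialFibre G') (cpt (s ≫ j : Pts G' R))
    with hC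
  have hemb : Topology.IsEmbedding j.left := j.left.isOpenEmbedding.isEmbedding
  have hsub : C ⊆ Set.range j.left ∩ specialFibre G' := connectedComponentIn_subset _ _
  have hmem : cpt (s ≫ j : Pts G' R) ∈ C := by
    apply mem_connectedComponentIn
    exact ⟨⟨cpt s, rfl⟩, cpt_mem' _⟩
  have himg : j.left '' (j.left ⁻¹' C) = C := by
    rw [Set.image_preimage_eq_inter_range]
    exact Set.inter_eq_left.2 fun z hz => (hsub hz).1
  have hpre : _root_.IsPreconnected (j.left ⁻¹' C) := by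
    rw [← hemb.isInducing.isPreconnected_image, himg]
    exact isPreconnected_connectedComponentIn
  have hsub2 : j.left ⁻¹' C ⊆ specialFibre G := by
    intro z hz
    exact (mem_fibre_iff j z).1 (hsub hz).2
  exact hpre.subset_connectedComponentIn (x := cpt s) hmem hsub2 h

end basic

theorem weil_surj {R S B W : Type} [CommRing R] [CommRing S] [Algebra R S] [CommRing B]
    [Algebra S B] [CommRing W] [Algebra R W] (u : B →ₐ[S] S ⊗[R] W) (hu : IsWeil R S B W u)
    (ψ : B →ₐ[S] S) : ∃ w : W →ₐ[R] R, weilPt u w = ψ := by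
  obtain ⟨w, hw⟩ := (hu R).2 ((Algebra.TensorProduct.rid R S S).symm.toAlgHom.comp ψ)
  refine ⟨w, ?_⟩
  unfold weilPt
  have hw' : (Algebra.TensorProduct.map (AlgHom.id S S) w).comp u =
    (Algebra.TensorProduct.rid R S S).symm.toAlgHom.comp ψ := hw
  rw [hw']
  ext b
  exact (Algebra.TensorProduct.rid R S S).apply_symm_apply (ψ b)

theorem gTR1 (hNBH : NBH) (hLOC : LOC) (hCOMPG : COMPG) (hCHART : CHART) (hWEILE : WEILE)
    (hWEILS : WEILS) (hCONN : CONN) (hTREX : TREX) (hNORM : NORM) : TR1 := by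
  intro K R M S N _ _ _ _ _ _ _ _ _ _ _ _ _ _ _ _ _ _ _ _ _ _ _ _ _ _ _ _ X _ _ 𝒢 ℋ hres hpow
    x y hxy hx
  obtain ⟨-, -, Tr, hTr⟩ := hTREX K M N X
  obtain ⟨B, _, _, j, hsm, hj, he, hlift, -⟩ := hCHART S ℋ.G ℋ.smooth (cpt (1 : Pts ℋ.G S))
  obtain ⟨W, _, _, u, hfp, hu⟩ := hWEILE R S B
  have hfs := hWEILS R S B W u hu
  have : Algebra.Smooth R W := ⟨hfs, hfp⟩
  obtain ⟨v, hv⟩ := hNORM K R M S N X 𝒢 ℋ B W u j
  have he2 : cpt (1 : Pts ℋ.G S) ∈ specialFibre ℋ.G := cpt_mem' _
  obtain ⟨V, heV, hVU, hV⟩ := hNBH S ℋ.G ℋ.smooth j.left.opensRange (cpt (1 : Pts ℋ.G S)) he he2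
  obtain ⟨ψ₁, hψ₁⟩ := hlift 1 he
  obtain ⟨w₁, hw₁⟩ := weil_surj u hu ψ₁
  have hone : v.map w₁ = 1 := by
    have h1 := (hTr _ _).1 (hv w₁)
    rw [hw₁, hψ₁, map_one, map_one] at h1
    have h2 := congrArg (sec 𝒢) h1
    rw [map_one, MulEquiv.apply_symm_apply] at h2
    exact h2.symm
  -- the claim on the points near the unit
  have hclaim : ∀ s : Pts ℋ.G S, cpt s ∈ V → SameComp 1 (sec 𝒢 (Tr ((sec ℋ).symm s))) := by
    intro s hs
    obtain ⟨ψ, hψ⟩ := hlift s (hVU hs)
    obtain ⟨w, hw⟩ := weil_surj u hu ψ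
    have h1 : SameComp (G := SpecA S B) (specMap ψ₁) (specMap ψ) := by
      apply sc_of_image j
      have e1 : (specMap ψ₁ ≫ j : Pts ℋ.G S) = 1 := hψ₁
      have e2 : (specMap ψ ≫ j : Pts ℋ.G S) = s := hψ
      rw [e1, e2]
      exact hV ⟨hs, cpt_mem' s⟩
    rw [← hw₁, ← hw] at h1
    have h2 := hCONN R S B W u hu hres hpow w₁ w h1
    have h3 := sc_map v h2
    have h4 : SameComp (v.map w₁) (v.map w) := h3
    have h5 := (hTr _ _).1 (hv w)
    rw [hw, hψ] at h5
    rw [h5, MulEquiv.apply_symm_apply, ← hone]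
    exact h4
  let P0 : Subgroup (Pts X M) :=
    { carrier := {y | SameComp 1 (sec 𝒢 y)}
      mul_mem' := by
        intro a b ha hb
        have h := hCOMPG R 𝒢.G 1 (sec 𝒢 a) 1 (sec 𝒢 b) ha hb
        rw [mul_one] at h
        show SameComp 1 (sec 𝒢 (a * b))
        rw [map_mul]
        exact h
      one_mem' := by
        show SameComp 1 (sec 𝒢 1)
        rw [map_one]
        exact sc_refl _
      inv_mem' := by
        intro a ha
        have h := hCOMPG R 𝒢.G 1 (sec 𝒢 a) ((sec 𝒢 a)⁻¹) ((sec 𝒢 a)⁻¹) ha (sc_refl _)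
        rw [one_mul, mul_inv_cancel] at h
        show SameComp 1 (sec 𝒢 a⁻¹)
        rw [map_inv]
        exact sc_symm h }
  have hnorm : P0.Normal := by
    refine ⟨fun n hn g => ?_⟩
    have e : g * n * g⁻¹ = n := by
      rw [Pts.mul_comm g n, mul_assoc, mul_inv_cancel, mul_one]
    rw [e]
    exact hn
  let Δ : Pts ℋ.G S →* (Pts X M ⧸ P0) :=
    (QuotientGroup.mk' P0).comp (Tr.comp ((sec ℋ).symm.toMonoidHom))
  have hΔ : ∀ s : Pts ℋ.G S, cpt s ∈ V → Δ s = 1 := by
    intro s hs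
    exact (QuotientGroup.eq_one_iff _).2 (hclaim s hs)
  have hfin := hLOC S ℋ.G ℋ.smooth _ Δ V 1 ⟨_, heV, he2⟩ hΔ 1 (sec ℋ x) hx
  rw [map_one] at hfin
  have h6 : Tr ((sec ℋ).symm (sec ℋ x)) ∈ P0 := (QuotientGroup.eq_one_iff _).1 hfin.symm
  rw [MulEquiv.symm_apply_apply, (hTr x y).1 hxy] at h6
  exact h6

end Pool.Agent.Helper42.Tm
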